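import Pool.Agent.N688.FB.Eng
import Pool.Agent.R498.MT.QSys

set_option autoImplicit false

/-!
# Almost prime values of a quadratic polynomial at prescribed distances among any `K` shifts
-/

open Filter Finset Polynomial

namespace Pool.Agent.N688.QB

/-- `A z ^ 2 + B z + C` has at most three prime factors, all `≥ N ^ (73 / 400)`, and `f z` has at most `r`, all
`≥ N ^ η` -/
def GoodAt (A B C : ℤ) (f : ℤ[X]) (r : ℕ) (η : ℝ) (N : ℕ) (z : ℤ) : Prop :=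
  (N : ℤ) < z ∧ (z : ℝ) ≤ N + (N : ℝ) ^ (3 / 4 : ℝ) ∧
  (A * z ^ 2 + B * z + C).natAbs.primeFactorsList.length ≤ 3 ∧
  (∀ p : ℕ, p.Prime → (p : ℤ) ∣ A * z ^ 2 + B * z + C → (N : ℝ) ^ (73 / 400 : ℝ) ≤ p) ∧
  (f.eval z).natAbs.primeFactorsList.length ≤ r ∧
  ∀ p : ℕ, p.Prime → (p : ℤ) ∣ f.eval z → (N : ℝ) ^ η ≤ p

/-- the pattern `y` along a progression of length `l` -/
def Runs (A B C : ℤ) (f : ℤ[X]) (r : ℕ) (η : ℝ) (l D N : ℕ) {k : ℕ} (y : Fin k → ℤ) : Prop :=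
  ∃ n e : ℕ, 1 ≤ e ∧ (e : ℝ) ≤ Real.log N ^ D ∧
    ∀ j < l, ∀ i, GoodAt A B C f r η N (n + j * e + y i)

theorem hit (A B C : ℤ) (hA : A ≠ 0) (hΔ : ¬ IsSquare (B ^ 2 - 4 * A * C))
    (f : ℤ[X]) (hf : f ≠ 0)
    (hadm : ∀ p : ℕ, p.Prime → ∃ n : ℤ, ¬ (p : ℤ) ∣ (A * n ^ 2 + B * n + C) * f.eval n)
    (k : ℕ) :
    ∃ K : ℕ, ∀ H : ℕ, ∃ (r : ℕ) (η : ℝ), 0 < η ∧ ∀ l : ℕ, ∃ D : ℕ, ∀ᶠ N : ℕ in atTop,
      ∀ F : Finset ℤ, F ⊆ Ico 0 (H : ℤ) → F.card = K →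
        ∃ x : Fin (k + 2) → ℤ, StrictMono x ∧ (∀ i, x i ∈ F) ∧
          Runs A B C f r η l D N (fun i => x i - x 0) := by
  classical
  obtain ⟨K, hK⟩ := Pool.Agent.R498.MT.quad_sys A B C hA hΔ f hf hadm (k + 2)
  refine ⟨K, fun H => ?_⟩
  choose! rf ηf hη0 hl using hK
  set SS : Finset (Finset ℕ) := (Finset.range H).powerset.filter (fun S => K ≤ S.card) with hSS
  have hmem : ∀ S ∈ SS, K ≤ S.card := fun S hS => (mem_filter.1 hS).2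
  -- the parameters
  have hη : ∃ η : ℝ, 0 < η ∧ ∀ S ∈ SS, η ≤ ηf S := by
    rcases SS.eq_empty_or_nonempty with h | h
    · exact ⟨1, one_pos, fun S hS => by rw [h] at hS; exact absurd hS (notMem_empty _)⟩
    · exact ⟨SS.inf' h ηf, (Finset.lt_inf'_iff h).2 fun S hS => hη0 S (hmem S hS),
        fun S hS => Finset.inf'_le _ hS⟩
  obtain ⟨η, hη1, hη2⟩ := hη
  refine ⟨SS.sup rf, η, hη1, fun l => ?_⟩
  have hl' : ∀ S : Finset ℕ, K ≤ S.card → ∃ B' : ℕ, ∀ᶠ N : ℕ in atTop, ∃ H' ⊆ S, H'.card = k + 2 ∧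
      ∃ n d : ℕ, 1 ≤ d ∧ (d : ℝ) ≤ Real.log N ^ B' ∧ ∀ j < l + H + 1, N < n + j * d ∧
          ((n + j * d : ℕ) : ℝ) ≤ N + (N : ℝ) ^ (3 / 4 : ℝ) ∧ ∀ h ∈ H',
          (A * ((n + j * d + h : ℕ) : ℤ) ^ 2 + B * ((n + j * d + h : ℕ) : ℤ) +
            C).natAbs.primeFactorsList.length ≤ 3 ∧
          (∀ p : ℕ, p.Prime → (p : ℤ) ∣ A * ((n + j * d + h : ℕ) : ℤ) ^ 2 +
            B * ((n + j * d + h : ℕ) : ℤ) + C → (N : ℝ) ^ (73 / 400 : ℝ) ≤ p) ∧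
          (f.eval ((n + j * d + h : ℕ) : ℤ)).natAbs.primeFactorsList.length ≤ rf S ∧
          ∀ p : ℕ, p.Prime → (p : ℤ) ∣ f.eval ((n + j * d + h : ℕ) : ℤ) → (N : ℝ) ^ (ηf S) ≤ p :=
    fun S hS => hl S hS (l + H + 1)
  choose! Bf hBf using hl'
  refine ⟨SS.sup Bf, ?_⟩
  have hall : ∀ᶠ N : ℕ in atTop, ∀ S ∈ SS, ∃ H' ⊆ S, H'.card = k + 2 ∧
      ∃ n d : ℕ, 1 ≤ d ∧ (d : ℝ) ≤ Real.log N ^ (Bf S) ∧ ∀ j < l + H + 1, N < n + j * d ∧
          ((n + j * d : ℕ) : ℝ) ≤ N + (N : ℝ) ^ (3 / 4 : ℝ) ∧ ∀ h ∈ H',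
          (A * ((n + j * d + h : ℕ) : ℤ) ^ 2 + B * ((n + j * d + h : ℕ) : ℤ) +
            C).natAbs.primeFactorsList.length ≤ 3 ∧
          (∀ p : ℕ, p.Prime → (p : ℤ) ∣ A * ((n + j * d + h : ℕ) : ℤ) ^ 2 +
            B * ((n + j * d + h : ℕ) : ℤ) + C → (N : ℝ) ^ (73 / 400 : ℝ) ≤ p) ∧
          (f.eval ((n + j * d + h : ℕ) : ℤ)).natAbs.primeFactorsList.length ≤ rf S ∧
          ∀ p : ℕ, p.Prime → (p : ℤ) ∣ f.eval ((n + j * d + h : ℕ) : ℤ) → (N : ℝ) ^ (ηf S) ≤ p := by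
    rw [Filter.eventually_all_finset]
    exact fun S hS => hBf S (hmem S hS)
  have hlog : ∀ᶠ N : ℕ in atTop, 1 ≤ Real.log N :=
    (Real.tendsto_log_atTop.comp tendsto_natCast_atTop_atTop).eventually_ge_atTop 1
  filter_upwards [hall, hlog, eventually_ge_atTop 1] with N hN hlogN hN1
  intro F hF hFK
  have hF0 : ∀ y ∈ F, 0 ≤ y ∧ y < H := fun y hy => mem_Ico.1 (hF hy)
  -- the set of natural numbers
  set S : Finset ℕ := F.image Int.toNat with hS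
  have hSc : S.card = K := by
    rw [hS, card_image_of_injOn, hFK]
    intro y hy z hz hyz
    have h1 := hF0 y (mem_coe.1 hy)
    have h2 := hF0 z (mem_coe.1 hz)
    have h3 : y.toNat = z.toNat := hyz
    omega
  have hSS' : S ∈ SS := by
    rw [hSS, mem_filter, mem_powerset]
    refine ⟨fun y hy => ?_, hSc.ge⟩
    obtain ⟨z, hz, rfl⟩ := mem_image.1 hy
    have h1 := hF0 z hz
    rw [Finset.mem_range]
    omega
  obtain ⟨H', hH', hH'c, n, d, hd1, hd2, hrun⟩ := hN S hSS'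
  have hSF : ∀ y ∈ S, (y : ℤ) ∈ F := by
    intro y hy
    obtain ⟨z, hz, rfl⟩ := mem_image.1 hy
    have h1 := hF0 z hz
    rwa [Int.toNat_of_nonneg h1.1]
  refine ⟨fun i => (H'.orderEmbOfFin hH'c i : ℤ), ?_, ?_, n + H'.orderEmbOfFin hH'c 0, d, hd1, ?_, ?_⟩
  · intro i j hij
    show ((H'.orderEmbOfFin hH'c i : ℕ) : ℤ) < ((H'.orderEmbOfFin hH'c j : ℕ) : ℤ)
    exact_mod_cast (H'.orderEmbOfFin hH'c).strictMono hij
  · intro i
    exact hSF _ (hH' (H'.orderEmbOfFin_mem hH'c i))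
  · exact hd2.trans (pow_le_pow_right₀ hlogN (Finset.le_sup hSS'))
  · intro j hj i
    obtain ⟨g1, g2, g3⟩ := hrun j (by omega)
    have hi := H'.orderEmbOfFin_mem hH'c i
    obtain ⟨g4, g5, g6, g7⟩ := g3 _ hi
    have e : (((n + H'.orderEmbOfFin hH'c 0 : ℕ) : ℤ) + j * d +
        ((H'.orderEmbOfFin hH'c i : ℤ) - (H'.orderEmbOfFin hH'c 0 : ℤ))) =
        ((n + j * d + H'.orderEmbOfFin hH'c i : ℕ) : ℤ) := by
      push_cast
      ring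
    rw [e]
    have hiH : H'.orderEmbOfFin hH'c i < H := by
      have h1 := hF0 _ (hSF _ (hH' hi))
      exact_mod_cast h1.2
    refine ⟨?_, ?_, g4, g5, g6.trans (Finset.le_sup hSS'), fun p hp hpd => le_trans ?_ (g7 p hp hpd)⟩
    · exact_mod_cast lt_of_lt_of_le g1 (Nat.le_add_right _ _)
    · obtain ⟨-, g8, -⟩ := hrun (j + H) (by omega)
      refine le_trans ?_ g8
      have h2 : n + j * d + H'.orderEmbOfFin hH'c i ≤ n + (j + H) * d := by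
        have h3 : H ≤ H * d := Nat.le_mul_of_pos_right H hd1
        have h4 : (j + H) * d = j * d + H * d := by ring
        omega
      exact_mod_cast h2
    · exact Real.rpow_le_rpow_of_exponent_le (by exact_mod_cast hN1) (hη2 S hSS')

end Pool.Agent.N688.QB
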